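import Pool.Agent.Helper17.DF.Fast

set_option autoImplicit false

/-!
DF-3: the weighted recursion over the ports implies the recursion `GG`.
-/

namespace Pool.Agent.Helper17.CT

private theorem d3_andR (x y : Bool) : andR x y = (x && y) := by
  cases x <;> rfl

private theorem d3_orR (x y : Bool) : orR x y = (x || y) := by
  cases x <;> rfl

private theorem d3_zeroR (T : TT) : zeroR T = T.zero := by
  induction T with
  | nil => rfl
  | leaf w => rfl
  | node u o s d hu ho hs hd =>
    have h : zeroR (TT.node u o s d) =
        andR (zeroR u) (andR (zeroR o) (andR (zeroR s) (zeroR d))) := rfl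
    rw [h, hu, ho, hs, hd, d3_andR, d3_andR, d3_andR]
    rfl

private theorem d3_foldR (wd t x : ℕ) : foldR wd t x = fold wd t x := by
  induction t generalizing x with
  | zero => rfl
  | succ t ih =>
    have h : foldR wd (t + 1) x =
        foldR wd t (Nat.xor x (Nat.shiftRight x (Nat.mul wd (Nat.shiftLeft 1 t)))) := rfl
    rw [h, ih]
    rfl

private theorem d3_orbR (m b x0 U : ℕ) (f : ℕ) : ∀ x acc : ℕ, orbR false m b x0 U f x acc =
    (match orb m b x0 f x acc with
      | none => false
      | some r => Nat.beq r U) := by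
  induction f with
  | zero => intro x acc; rfl
  | succ f ih =>
    intro x acc
    have h1 : orbR false m b x0 U (f + 1) x acc =
        Bool.rec (orbR false m b x0 U f (d4 b (d4 m x))
          (Nat.lor (Nat.lor acc (Nat.shiftLeft 1 x)) (Nat.shiftLeft 1 (d4 m x))))
          (Nat.beq (Nat.lor (Nat.lor acc (Nat.shiftLeft 1 x)) (Nat.shiftLeft 1 (d4 m x))) U)
          (Nat.beq (d4 b (d4 m x)) x0) := rfl
    have h2 : orb m b x0 (f + 1) x acc = cond (Nat.beq (d4 b (d4 m x)) x0)
        (some (Nat.lor (Nat.lor acc (Nat.shiftLeft 1 x)) (Nat.shiftLeft 1 (d4 m x))))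
        (orb m b x0 f (d4 b (d4 m x))
          (Nat.lor (Nat.lor acc (Nat.shiftLeft 1 x)) (Nat.shiftLeft 1 (d4 m x)))) := rfl
    rw [h1, h2, ih]
    cases Nat.beq (d4 b (d4 m x)) x0 <;> rfl

private theorem d3_singR (k m b U : ℕ) : singR false k m b U = sing' k m b U :=
  d3_orbR m b (Nat.log2 U) U k (Nat.log2 U) 0

private theorem d3_blkR (F : Code) (S : Tri') (U b : ℕ) :
    blkR F.k U b (S.get U 0) = blk F S U b := by
  unfold blk
  generalize S.get U 0 = l
  induction l with
  | nil => rfl
  | cons s l ih =>
    have h : blkR F.k U b (s :: l) =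
        orR (andR (Nat.beq s.U U) (singR false F.k s.m b U)) (blkR F.k U b l) := rfl
    rw [h, ih, d3_orR, d3_andR, d3_singR]
    rfl

private theorem d3_zero_u {T : TT} (h : T.zero = true) : T.u.zero = true := by
  cases T with
  | nil => rfl
  | leaf w => rfl
  | node u o s d =>
    simp only [TT.zero, Bool.and_eq_true] at h
    exact h.1

private theorem d3_zero_o {T : TT} (h : T.zero = true) : T.o.zero = true := by
  cases T with
  | nil => rfl
  | leaf w => rfl
  | node u o s d =>
    simp only [TT.zero, Bool.and_eq_true] at h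
    exact h.2.1

private theorem d3_zero_s {T : TT} (h : T.zero = true) : T.s.zero = true := by
  cases T with
  | nil => rfl
  | leaf w => rfl
  | node u o s d =>
    simp only [TT.zero, Bool.and_eq_true] at h
    exact h.2.2.1

private theorem d3_zero_d {T : TT} (h : T.zero = true) : T.d.zero = true := by
  cases T with
  | nil => rfl
  | leaf w => rfl
  | node u o s d =>
    simp only [TT.zero, Bool.and_eq_true] at h
    exact h.2.2.2

private theorem d3_val {T : TT} (h : T.zero = true) : T.val 0 = true := by
  cases T with
  | nil => rfl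
  | leaf w => exact h
  | node u o s d => rfl

private theorem d3_fold_zero (wd t : ℕ) : fold wd t 0 = 0 := by
  induction t with
  | zero => exact Nat.zero_mod _
  | succ t ih =>
    have h : fold wd (t + 1) 0 =
        fold wd t (Nat.xor 0 (Nat.shiftRight 0 (Nat.mul wd (Nat.shiftLeft 1 t)))) := rfl
    have h2 : Nat.xor 0 (Nat.shiftRight 0 (Nat.mul wd (Nat.shiftLeft 1 t))) = 0 := by
      change 0 ^^^ (0 >>> _) = 0
      simp
    rw [h, h2, ih]

/-- the recursion at the leaf -/
private theorem d3_GG_zero (F : Code) (S : Tri') (Us Xs : List ℕ) (W wd t p : ℕ) (st : List ℕ)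
    (U B L : ℕ) (T : TT) : GG F S Us Xs W wd t 0 p st U B L T = cond (Nat.beq L 0) T.zero
      (match st with
        | [] => and (T.val (fold wd t (Nat.land L W)))
            (or (Nat.beq (fold wd t (Nat.land L W)) 0) (blk F S U B))
        | _ :: _ => true) := by
  cases st <;> rfl

/-- the recursion step, empty stack -/
private theorem d3_GG_nil (F : Code) (S : Tri') (Us Xs : List ℕ) (W wd t f p : ℕ)
    (U B L : ℕ) (T : TT) : GG F S Us Xs W wd t (f + 1) p [] U B L T = cond (Nat.beq L 0) T.zero
      (and (GG F S Us Xs W wd t f (p + 1) [] U (Nat.lor B (Nat.shiftLeft p (Nat.mul 4 p)))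
            (Nat.xor L (Nat.land L (getN Us p))) T.u)
        (and (GG F S Us Xs W wd t f (p + 1) [p] (Nat.lor U (Nat.shiftLeft 1 p)) B
            (Nat.land L (getN Us p)) T.o) true)) := rfl

/-- the recursion step, nonempty stack -/
private theorem d3_GG_cons (F : Code) (S : Tri') (Us Xs : List ℕ) (W wd t f p q : ℕ)
    (st : List ℕ) (U B L : ℕ) (T : TT) : GG F S Us Xs W wd t (f + 1) p (q :: st) U B L T =
      cond (Nat.beq L 0) T.zero
      (and (GG F S Us Xs W wd t f (p + 1) (q :: st) U
            (Nat.lor B (Nat.shiftLeft p (Nat.mul 4 p)))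
            (Nat.xor L (Nat.land L (getN Us p))) T.u)
        (and (GG F S Us Xs W wd t f (p + 1) (p :: q :: st) (Nat.lor U (Nat.shiftLeft 1 p)) B
            (Nat.land L (getN Us p)) T.o)
          (and (GG F S Us Xs W wd t f (p + 1) st (Nat.lor U (Nat.shiftLeft 1 p))
              (Nat.lor B (Nat.lor (Nat.shiftLeft p (Nat.mul 4 q)) (Nat.shiftLeft q (Nat.mul 4 p))))
              (Nat.xor (Nat.land L (getN Us p)) (Nat.land (Nat.land L (getN Us p))
                (Nat.xor (getN Xs p) (getN Xs q)))) T.s)
            (GG F S Us Xs W wd t f (p + 1) st (Nat.lor U (Nat.shiftLeft 1 p))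
              (Nat.lor B (Nat.lor (Nat.shiftLeft p (Nat.mul 4 q)) (Nat.shiftLeft q (Nat.mul 4 p))))
              (Nat.land (Nat.land L (getN Us p)) (Nat.xor (getN Xs p) (getN Xs q))) T.d)))) := rfl

private theorem d3_land_zero {L W : ℕ} (a : ℕ) (h : Nat.land L W = 0) :
    Nat.land (Nat.land L a) W = 0 := by
  change (L &&& a) &&& W = 0
  change L &&& W = 0 at h
  rw [Nat.and_right_comm, h, Nat.zero_and]

private theorem d3_xor_zero {L M W : ℕ} (h : Nat.land L W = 0) (h' : Nat.land M W = 0) :
    Nat.land (Nat.xor L M) W = 0 := by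
  change (L ^^^ M) &&& W = 0
  change L &&& W = 0 at h
  change M &&& W = 0 at h'
  rw [Nat.and_xor_distrib_right, h, h', Nat.xor_self]

/-- Lemma Z -/
private theorem d3_lemZ (F : Code) (S : Tri') (Us Xs : List ℕ) (W wd t : ℕ) :
    ∀ (f p : ℕ) (st : List ℕ) (U B L : ℕ) (T : TT), T.zero = true →
      (Nat.land L W = 0 ∨ f < st.length) → GG F S Us Xs W wd t f p st U B L T = true := by
  intro f
  induction f with
  | zero =>
    intro p st U B L T hT hL
    rw [d3_GG_zero]
    cases hb : Nat.beq L 0 with
    | true => exact hT
    | false =>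
      cases st with
      | cons q st => rfl
      | nil =>
        have h1 : Nat.land L W = 0 := by
          rcases hL with h | h
          · exact h
          · simp at h
        change and (T.val (fold wd t (Nat.land L W)))
            (or (Nat.beq (fold wd t (Nat.land L W)) 0) (blk F S U B)) = true
        rw [h1, d3_fold_zero, d3_val hT]
        rfl
  | succ f ih =>
    intro p st U B L T hT hL
    cases st with
    | nil =>
      rw [d3_GG_nil]
      have h1 : Nat.land L W = 0 := by
        rcases hL with h | h
        · exact h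
        · simp at h
      cases hb : Nat.beq L 0 with
      | true => exact hT
      | false =>
        change and _ (and _ true) = true
        rw [ih _ _ _ _ _ _ (d3_zero_u hT) (Or.inl (d3_xor_zero h1 (d3_land_zero _ h1))),
          ih _ _ _ _ _ _ (d3_zero_o hT) (Or.inl (d3_land_zero _ h1))]
        rfl
    | cons q st =>
      rw [d3_GG_cons]
      cases hb : Nat.beq L 0 with
      | true => exact hT
      | false =>
        change and _ (and _ (and _ _)) = true
        have a1 : Nat.land (Nat.xor L (Nat.land L (getN Us p))) W = 0 ∨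
            f < (q :: st).length := by
          rcases hL with h | h
          · exact Or.inl (d3_xor_zero h (d3_land_zero _ h))
          · right; simp only [List.length_cons] at h ⊢; omega
        have a2 : Nat.land (Nat.land L (getN Us p)) W = 0 ∨ f < (p :: q :: st).length := by
          rcases hL with h | h
          · exact Or.inl (d3_land_zero _ h)
          · right; simp only [List.length_cons] at h ⊢; omega
        have a3 : Nat.land (Nat.xor (Nat.land L (getN Us p)) (Nat.land (Nat.land L (getN Us p))
                (Nat.xor (getN Xs p) (getN Xs q)))) W = 0 ∨ f < st.length := by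
          rcases hL with h | h
          · exact Or.inl (d3_xor_zero (d3_land_zero _ h) (d3_land_zero _ (d3_land_zero _ h)))
          · right; simp only [List.length_cons] at h; omega
        have a4 : Nat.land (Nat.land (Nat.land L (getN Us p))
                (Nat.xor (getN Xs p) (getN Xs q))) W = 0 ∨ f < st.length := by
          rcases hL with h | h
          · exact Or.inl (d3_land_zero _ (d3_land_zero _ h))
          · right; simp only [List.length_cons] at h; omega
        rw [ih _ _ _ _ _ _ (d3_zero_u hT) a1, ih _ _ _ _ _ _ (d3_zero_o hT) a2,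
          ih _ _ _ _ _ _ (d3_zero_s hT) a3, ih _ _ _ _ _ _ (d3_zero_d hT) a4]
        rfl

/-- the stack with its class sets -/
private def d3_toSt (Xs : List ℕ) (W : ℕ) : List ℕ → St
  | [] => .nil
  | q :: st => .cons q (Nat.land (getN Xs q) W) (d3_toSt Xs W st)

private theorem d3_GG4_nil (k : ℕ) (S : Tri') (wd t h : ℕ) (st : St) (U B L : ℕ) (T : TT) :
    GG4 k S wd t .nil h st U B L T = Bool.rec
      (St.rec ((fun w => andR (TT.rec true (fun w' => Nat.beq w' w)
          (fun _ _ _ _ _ _ _ _ => true) T)
        (orR (Nat.beq w 0) (blkR k U B (S.get U 0)))) (foldR wd t L)) (fun _ _ _ _ => true) st)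
      (zeroR T) (Nat.beq L 0) := rfl

private theorem d3_GG4_cons_nil (k : ℕ) (S : Tri') (wd t u x p sp r : ℕ) (s : UX) (h : ℕ)
    (U B L : ℕ) (T : TT) :
    GG4 k S wd t (.cons u x p sp r s) h .nil U B L T = Bool.rec (Bool.rec (zeroR T)
        (andR (GG4 k S wd t s h .nil U (Nat.lor B sp) (Nat.xor L (Nat.land L u)) T.u)
          (andR (GG4 k S wd t s (Nat.succ h) (.cons p x .nil) (Nat.lor U (Nat.shiftLeft 1 p)) B
            (Nat.land L u) T.o) true)) (Nat.ble h r))
      (zeroR T) (Nat.beq L 0) := rfl

private theorem d3_GG4_cons_cons (k : ℕ) (S : Tri') (wd t u x p sp r : ℕ) (s : UX) (h q y : ℕ)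
    (st : St) (U B L : ℕ) (T : TT) :
    GG4 k S wd t (.cons u x p sp r s) h (.cons q y st) U B L T = Bool.rec (Bool.rec (zeroR T)
        (andR (GG4 k S wd t s h (.cons q y st) U (Nat.lor B sp) (Nat.xor L (Nat.land L u)) T.u)
          (andR (GG4 k S wd t s (Nat.succ h) (.cons p x (.cons q y st))
              (Nat.lor U (Nat.shiftLeft 1 p)) B (Nat.land L u) T.o)
            (andR (GG4 k S wd t s (Nat.pred h) st (Nat.lor U (Nat.shiftLeft 1 p))
                (Nat.lor B (Nat.lor (Nat.shiftLeft p (Nat.mul 4 q))
                      (Nat.shiftLeft q (Nat.mul 4 p))))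
                (Nat.xor (Nat.land L u) (Nat.land (Nat.land L u) (Nat.xor x y))) T.s)
              (GG4 k S wd t s (Nat.pred h) st (Nat.lor U (Nat.shiftLeft 1 p))
                (Nat.lor B (Nat.lor (Nat.shiftLeft p (Nat.mul 4 q))
                      (Nat.shiftLeft q (Nat.mul 4 p))))
                (Nat.land (Nat.land L u) (Nat.xor x y)) T.d)))) (Nat.ble h r))
      (zeroR T) (Nat.beq L 0) := rfl

private theorem d3_a1 (L u W : ℕ) : Nat.land (Nat.land L W) (Nat.land u W) =
    Nat.land (Nat.land L u) W := by
  change (L &&& W) &&& (u &&& W) = (L &&& u) &&& W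
  apply Nat.eq_of_testBit_eq
  intro i
  simp only [Nat.testBit_and]
  cases L.testBit i <;> cases u.testBit i <;> cases W.testBit i <;> rfl

private theorem d3_a2 (L u W : ℕ) :
    Nat.xor (Nat.land L W) (Nat.land (Nat.land L W) (Nat.land u W)) =
    Nat.land (Nat.xor L (Nat.land L u)) W := by
  change (L &&& W) ^^^ ((L &&& W) &&& (u &&& W)) = (L ^^^ (L &&& u)) &&& W
  apply Nat.eq_of_testBit_eq
  intro i
  simp only [Nat.testBit_and, Nat.testBit_xor]
  cases L.testBit i <;> cases u.testBit i <;> cases W.testBit i <;> rfl

private theorem d3_a3 (L u x y W : ℕ) :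
    Nat.land (Nat.land (Nat.land L W) (Nat.land u W)) (Nat.xor (Nat.land x W) (Nat.land y W)) =
    Nat.land (Nat.land (Nat.land L u) (Nat.xor x y)) W := by
  change ((L &&& W) &&& (u &&& W)) &&& ((x &&& W) ^^^ (y &&& W)) =
    ((L &&& u) &&& (x ^^^ y)) &&& W
  apply Nat.eq_of_testBit_eq
  intro i
  simp only [Nat.testBit_and, Nat.testBit_xor]
  cases L.testBit i <;> cases u.testBit i <;> cases W.testBit i <;> cases x.testBit i <;>
    cases y.testBit i <;> rfl

private theorem d3_a4 (L u x y W : ℕ) :
    Nat.xor (Nat.land (Nat.land L W) (Nat.land u W))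
      (Nat.land (Nat.land (Nat.land L W) (Nat.land u W))
        (Nat.xor (Nat.land x W) (Nat.land y W))) =
    Nat.land (Nat.xor (Nat.land L u) (Nat.land (Nat.land L u) (Nat.xor x y))) W := by
  change ((L &&& W) &&& (u &&& W)) ^^^ (((L &&& W) &&& (u &&& W)) &&& ((x &&& W) ^^^ (y &&& W))) =
    ((L &&& u) ^^^ ((L &&& u) &&& (x ^^^ y))) &&& W
  apply Nat.eq_of_testBit_eq
  intro i
  simp only [Nat.testBit_and, Nat.testBit_xor]
  cases L.testBit i <;> cases u.testBit i <;> cases W.testBit i <;> cases x.testBit i <;>
    cases y.testBit i <;> rfl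

private theorem d3_getN_zip (g : ℕ → ℕ → ℕ) : ∀ (K1 K2 : List ℕ) (p : ℕ) (k1 k2 : ℕ)
    (K1' K2' : List ℕ), K1.drop p = k1 :: K1' → K2.drop p = k2 :: K2' →
    getN (zipN g K1 K2) p = g k1 k2 := by
  intro K1
  induction K1 with
  | nil => intro K2 p k1 k2 K1' K2' h1 h2; simp at h1
  | cons a K1 ih =>
    intro K2 p k1 k2 K1' K2' h1 h2
    cases K2 with
    | nil => simp at h2
    | cons b K2 =>
      cases p with
      | zero =>
        simp only [List.drop_zero, List.cons.injEq] at h1 h2
        rw [← h1.1, ← h2.1]
        rfl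
      | succ p =>
        simp only [List.drop_succ_cons] at h1 h2
        exact ih K2 p k1 k2 K1' K2' h1 h2

private theorem d3_main (F : Code) (S : Tri') (Bc : ℕ) (K1 K2 : List ℕ) (W wd t : ℕ) :
    ∀ (K1' K2' : List ℕ) (p f : ℕ) (st : List ℕ) (U B L : ℕ) (T : TT), K1' = K1.drop p →
      K2' = K2.drop p → K1'.length = f → K2'.length = f →
      GG4 F.k S wd t (mkUX W Bc K1' K2' p f) st.length (d3_toSt (zipN (xsOf Bc) K1 K2) W st) U B
        (Nat.land L W) T = true →
      GG F S (zipN (usOf Bc) K1 K2) (zipN (xsOf Bc) K1 K2) W wd t f p st U B L T = true := by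
  intro K1'
  induction K1' with
  | nil =>
    intro K2' p f st U B L T h1 h2 h3 h4 h
    obtain rfl : f = 0 := by simpa using h3.symm
    have hm : mkUX W Bc [] K2' p 0 = .nil := rfl
    rw [hm, d3_GG4_nil] at h
    cases hb : Nat.beq (Nat.land L W) 0 with
    | true =>
      rw [hb] at h
      have h' : zeroR T = true := h
      rw [d3_zeroR] at h'
      exact d3_lemZ F S _ _ W wd t 0 p st U B L T h' (Or.inl (Nat.eq_of_beq_eq_true hb))
    | false =>
      rw [hb] at h
      rw [d3_GG_zero]
      have hL : Nat.beq L 0 = false := by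
        cases hL : Nat.beq L 0 with
        | false => rfl
        | true =>
          have h5 := Nat.eq_of_beq_eq_true hL
          rw [h5] at hb
          have h6 : Nat.land 0 W = 0 := Nat.zero_and W
          rw [h6] at hb
          exact absurd hb (by decide)
      rw [hL]
      cases st with
      | cons q st => rfl
      | nil =>
        have h' : andR (TT.rec true (fun w' => Nat.beq w' (foldR wd t (Nat.land L W)))
            (fun _ _ _ _ _ _ _ _ => true) T)
          (orR (Nat.beq (foldR wd t (Nat.land L W)) 0) (blkR F.k U B (S.get U 0))) = true := h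
        rw [d3_andR, d3_orR, d3_blkR, d3_foldR] at h'
        change and (T.val (fold wd t (Nat.land L W)))
            (or (Nat.beq (fold wd t (Nat.land L W)) 0) (blk F S U B)) = true
        have hv : (TT.rec true (fun w' => Nat.beq w' (fold wd t (Nat.land L W)))
            (fun _ _ _ _ _ _ _ _ => true) T : Bool) = T.val (fold wd t (Nat.land L W)) := by
          cases T <;> rfl
        rw [← hv]
        exact h'
  | cons k1 K1' ih =>
    intro K2' p f st U B L T h1 h2 h3 h4 h
    obtain ⟨f, rfl⟩ : ∃ f', f = f' + 1 := ⟨K1'.length, by simpa using h3.symm⟩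
    cases K2' with
    | nil => simp at h4
    | cons k2 K2' =>
      have hU : getN (zipN (usOf Bc) K1 K2) p = usOf Bc k1 k2 :=
        d3_getN_zip _ K1 K2 p k1 k2 K1' K2' h1.symm h2.symm
      have hX : getN (zipN (xsOf Bc) K1 K2) p = xsOf Bc k1 k2 :=
        d3_getN_zip _ K1 K2 p k1 k2 K1' K2' h1.symm h2.symm
      have hd1 : K1' = K1.drop (p + 1) := by
        rw [← List.tail_drop, ← h1]
        rfl
      have hd2 : K2' = K2.drop (p + 1) := by
        rw [← List.tail_drop, ← h2]
        rfl
      have hl1 : K1'.length = f := by simpa using h3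
      have hl2 : K2'.length = f := by simpa using h4
      have hm : mkUX W Bc (k1 :: K1') (k2 :: K2') p (f + 1) =
          .cons (Nat.land (usOf Bc k1 k2) W) (Nat.land (xsOf Bc k1 k2) W) p
            (Nat.shiftLeft p (Nat.mul 4 p)) (f + 1) (mkUX W Bc K1' K2' (p + 1) f) := rfl
      rw [hm] at h
      set s := mkUX W Bc K1' K2' (p + 1) f with hs
      have key := fun st U B L T => ih K2' (p + 1) f st U B L T hd1 hd2 hl1 hl2
      rw [← hs] at key
      cases hb : Nat.beq (Nat.land L W) 0 with
      | true =>
        have h' : zeroR T = true := by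
          cases st with
          | nil =>
            have h5 : d3_toSt (zipN (xsOf Bc) K1 K2) W [] = .nil := rfl
            rw [h5, d3_GG4_cons_nil, hb] at h
            exact h
          | cons q st =>
            have h5 : d3_toSt (zipN (xsOf Bc) K1 K2) W (q :: st) =
              .cons q (Nat.land (getN (zipN (xsOf Bc) K1 K2) q) W)
                (d3_toSt (zipN (xsOf Bc) K1 K2) W st) := rfl
            rw [h5, d3_GG4_cons_cons, hb] at h
            exact h
        rw [d3_zeroR] at h'
        exact d3_lemZ F S _ _ W wd t (f + 1) p st U B L T h'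
          (Or.inl (Nat.eq_of_beq_eq_true hb))
      | false =>
        have hL : Nat.beq L 0 = false := by
          cases hL : Nat.beq L 0 with
          | false => rfl
          | true =>
            have h5 := Nat.eq_of_beq_eq_true hL
            rw [h5] at hb
            have h6 : Nat.land 0 W = 0 := Nat.zero_and W
            rw [h6] at hb
            exact absurd hb (by decide)
        cases hh : Nat.ble st.length (f + 1) with
        | false =>
          have h' : zeroR T = true := by
            cases st with
            | nil => exact Bool.noConfusion (show true = false from hh)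
            | cons q st =>
              have h5 : d3_toSt (zipN (xsOf Bc) K1 K2) W (q :: st) =
                .cons q (Nat.land (getN (zipN (xsOf Bc) K1 K2) q) W)
                  (d3_toSt (zipN (xsOf Bc) K1 K2) W st) := rfl
              rw [h5, d3_GG4_cons_cons, hb, hh] at h
              exact h
          rw [d3_zeroR] at h'
          have hlt : ¬ st.length ≤ f + 1 := by
            intro hle
            rw [Nat.ble_eq_true_of_le hle] at hh
            exact absurd hh (by decide)
          exact d3_lemZ F S _ _ W wd t (f + 1) p st U B L T h' (Or.inr (by omega))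
        | true =>
          cases st with
          | nil =>
            have h5 : d3_toSt (zipN (xsOf Bc) K1 K2) W [] = .nil := rfl
            have hh' : Nat.ble ([] : List ℕ).length (f + 1) = true := hh
            rw [h5, d3_GG4_cons_nil, hb, hh'] at h
            have h6 : andR (GG4 F.k S wd t s ([] : List ℕ).length .nil U
                (Nat.lor B (Nat.shiftLeft p (Nat.mul 4 p)))
                (Nat.xor (Nat.land L W) (Nat.land (Nat.land L W) (Nat.land (usOf Bc k1 k2) W)))
                T.u)
              (andR (GG4 F.k S wd t s (Nat.succ ([] : List ℕ).length)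
                (.cons p (Nat.land (xsOf Bc k1 k2) W) .nil) (Nat.lor U (Nat.shiftLeft 1 p)) B
                (Nat.land (Nat.land L W) (Nat.land (usOf Bc k1 k2) W)) T.o) true) = true := h
            rw [d3_andR, d3_andR, Bool.and_eq_true, Bool.and_eq_true] at h6
            obtain ⟨g1, g2, -⟩ := h6
            rw [d3_a2] at g1
            rw [d3_a1] at g2
            rw [d3_GG_nil, hL, hU]
            change and _ (and _ true) = true
            rw [key [] U _ _ T.u g1, key [p] _ B _ T.o (by
              have h7 : d3_toSt (zipN (xsOf Bc) K1 K2) W [p] =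
                .cons p (Nat.land (getN (zipN (xsOf Bc) K1 K2) p) W) .nil := rfl
              rw [h7, hX]
              exact g2)]
            rfl
          | cons q st =>
            have h5 : d3_toSt (zipN (xsOf Bc) K1 K2) W (q :: st) =
              .cons q (Nat.land (getN (zipN (xsOf Bc) K1 K2) q) W)
                (d3_toSt (zipN (xsOf Bc) K1 K2) W st) := rfl
            rw [h5, d3_GG4_cons_cons, hb, hh] at h
            have h6 : andR (GG4 F.k S wd t s (q :: st).length
                  (.cons q (Nat.land (getN (zipN (xsOf Bc) K1 K2) q) W)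
                    (d3_toSt (zipN (xsOf Bc) K1 K2) W st)) U
                  (Nat.lor B (Nat.shiftLeft p (Nat.mul 4 p)))
                  (Nat.xor (Nat.land L W) (Nat.land (Nat.land L W)
                    (Nat.land (usOf Bc k1 k2) W))) T.u)
                (andR (GG4 F.k S wd t s (Nat.succ (q :: st).length)
                  (.cons p (Nat.land (xsOf Bc k1 k2) W)
                    (.cons q (Nat.land (getN (zipN (xsOf Bc) K1 K2) q) W)
                    (d3_toSt (zipN (xsOf Bc) K1 K2) W st))) (Nat.lor U (Nat.shiftLeft 1 p)) B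
                  (Nat.land (Nat.land L W) (Nat.land (usOf Bc k1 k2) W)) T.o)
                (andR (GG4 F.k S wd t s (Nat.pred (q :: st).length)
                    (d3_toSt (zipN (xsOf Bc) K1 K2) W st) (Nat.lor U (Nat.shiftLeft 1 p))
                    (Nat.lor B (Nat.lor (Nat.shiftLeft p (Nat.mul 4 q))
                      (Nat.shiftLeft q (Nat.mul 4 p))))
                    (Nat.xor (Nat.land (Nat.land L W) (Nat.land (usOf Bc k1 k2) W))
                      (Nat.land (Nat.land (Nat.land L W) (Nat.land (usOf Bc k1 k2) W))
                        (Nat.xor (Nat.land (xsOf Bc k1 k2) W)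
                          (Nat.land (getN (zipN (xsOf Bc) K1 K2) q) W)))) T.s)
                  (GG4 F.k S wd t s (Nat.pred (q :: st).length)
                    (d3_toSt (zipN (xsOf Bc) K1 K2) W st) (Nat.lor U (Nat.shiftLeft 1 p))
                    (Nat.lor B (Nat.lor (Nat.shiftLeft p (Nat.mul 4 q))
                      (Nat.shiftLeft q (Nat.mul 4 p))))
                    (Nat.land (Nat.land (Nat.land L W) (Nat.land (usOf Bc k1 k2) W))
                        (Nat.xor (Nat.land (xsOf Bc k1 k2) W)
                          (Nat.land (getN (zipN (xsOf Bc) K1 K2) q) W))) T.d))) = true := h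
            rw [d3_andR, d3_andR, d3_andR, Bool.and_eq_true, Bool.and_eq_true,
              Bool.and_eq_true] at h6
            obtain ⟨g1, g2, g3, g4⟩ := h6
            rw [d3_a2] at g1
            rw [d3_a1] at g2
            rw [d3_a4] at g3
            rw [d3_a3] at g4
            rw [d3_GG_cons, hL, hU, hX]
            change and _ (and _ (and _ _)) = true
            rw [key (q :: st) U _ _ T.u g1, key (p :: q :: st) _ B _ T.o (by
              have h7 : d3_toSt (zipN (xsOf Bc) K1 K2) W (p :: q :: st) =
                .cons p (Nat.land (getN (zipN (xsOf Bc) K1 K2) p) W)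
                  (.cons q (Nat.land (getN (zipN (xsOf Bc) K1 K2) q) W)
                    (d3_toSt (zipN (xsOf Bc) K1 K2) W st)) := rfl
              rw [h7, hX]
              exact g2), key st _ _ _ T.s g3, key st _ _ _ T.d g4]
            rfl

theorem runG4_sound (F : Code) (S : Tri') (Ct : Cert) (T : TT)
    (hC : okCert Ct F.k = true) (h : runG4 F S Ct T = true) : runG F S Ct T = true := by
  unfold okCert at hC
  simp only [Bool.and_eq_true] at hC
  have h1 : Ct.K1.length = F.k := Nat.eq_of_beq_eq_true hC.1
  have h2 : Ct.K2.length = F.k := Nat.eq_of_beq_eq_true hC.2.1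
  unfold runG
  exact d3_main F S Ct.B Ct.K1 Ct.K2 Ct.W Ct.wd Ct.t Ct.K1 Ct.K2 0 F.k [] 0 0 _ T rfl rfl h1 h2 h

end Pool.Agent.Helper17.CT
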